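import Mathlib

set_option autoImplicit false

namespace Pool.Agent.Lib.MP_c22f6b_an

open MeasureTheory Metric ProbabilityTheory
open scoped ENNReal

/-- the flat torus -/
abbrev Tor (d : ℕ) := Fin d → UnitAddCircle

instance instProbCircle : IsProbabilityMeasure (volume : Measure UnitAddCircle) :=
  ⟨by simp⟩

/-- many lattice points on one sphere -/
lemma exists_lattice_points (d : ℕ) (hd : 2 ≤ d) (N : ℕ) :
    ∃ (n : ℕ) (S : Finset (Fin d → ℤ)), S.card = N ∧ ∀ k ∈ S, ∑ i, k i ^ 2 = (n : ℤ) := by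
  obtain ⟨e, rfl⟩ : ∃ e, d = e + 2 := ⟨d - 2, by omega⟩
  set D : ℤ := ∏ s ∈ Finset.range N, (1 + (s : ℤ) ^ 2) with hD
  have hDpos : 0 < D := Finset.prod_pos (fun s _ => by positivity)
  have hdvd : ∀ t ∈ Finset.range N, (1 + (t : ℤ) ^ 2) * (D / (1 + (t : ℤ) ^ 2)) = D := by
    intro t ht
    exact Int.mul_ediv_cancel' (Finset.dvd_prod_of_mem (fun s : ℕ => 1 + (s : ℤ) ^ 2) ht)
  let k : ℕ → (Fin (e + 2) → ℤ) := fun t =>
    Fin.cons ((1 - (t : ℤ) ^ 2) * (D / (1 + (t : ℤ) ^ 2)))
      (Fin.cons (2 * t * (D / (1 + (t : ℤ) ^ 2))) (fun _ => 0))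
  have hinj : Set.InjOn k (Finset.range N : Set ℕ) := by
    intro s hs t ht hst
    have h0 := congrFun hst 0
    simp only [k, Fin.cons_zero] at h0
    have hs' := hdvd s hs
    have ht' := hdvd t ht
    have hP : D / (1 + (s : ℤ) ^ 2) = D / (1 + (t : ℤ) ^ 2) := by linarith
    rw [hP] at hs'
    have hP0 : D / (1 + (t : ℤ) ^ 2) ≠ 0 := by
      intro h
      rw [h] at ht'
      omega
    have h2 : (1 + (s : ℤ) ^ 2) = (1 + (t : ℤ) ^ 2) :=
      mul_right_cancel₀ hP0 (hs'.trans ht'.symm)
    have h3 : (s : ℤ) ^ 2 = (t : ℤ) ^ 2 := by linarith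
    have h4 : (s : ℤ) = t := by
      exact (pow_left_inj₀ (by positivity) (by positivity) two_ne_zero).mp h3
    exact_mod_cast h4
  refine ⟨(D ^ 2).toNat, (Finset.range N).image k, ?_, ?_⟩
  · rw [Finset.card_image_of_injOn hinj, Finset.card_range]
  · intro v hv
    obtain ⟨t, ht, rfl⟩ := Finset.mem_image.mp hv
    rw [Int.toNat_of_nonneg (by positivity), Fin.sum_univ_succ, Fin.sum_univ_succ]
    simp only [k, Fin.cons_zero, Fin.cons_succ]
    have h := hdvd t ht
    generalize D / (1 + (t : ℤ) ^ 2) = P at h ⊢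
    rw [← h]
    simp
    ring

lemma integral_mFourier {d : ℕ} (k : Fin d → ℤ) :
    ∫ x : Tor d, UnitAddTorus.mFourier k x = if k = 0 then 1 else 0 := by
  split_ifs with h
  · subst h
    simp [UnitAddTorus.mFourier_zero]
  · obtain ⟨i, hi⟩ := Function.ne_iff.mp h
    simp only [UnitAddTorus.mFourier, ContinuousMap.coe_mk]
    rw [integral_fintype_prod_volume_eq_prod (fun i (x : UnitAddCircle) => fourier (k i) x)]
    apply Finset.prod_eq_zero (Finset.mem_univ i)
    exact integral_eq_zero_of_add_right_eq_neg (fourier_add_half_inv_index hi one_pos)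

lemma integral_sq_sum {d : ℕ} (S : Finset (Fin d → ℤ)) :
    ∫ x : Tor d, ‖∑ k ∈ S, UnitAddTorus.mFourier k x‖ ^ 2 = S.card := by
  have h1 : ∀ x : Tor d, ((‖∑ k ∈ S, UnitAddTorus.mFourier k x‖ ^ 2 : ℝ) : ℂ) =
      ∑ k ∈ S, ∑ l ∈ S, UnitAddTorus.mFourier (k - l) x := by
    intro x
    rw [← Complex.normSq_eq_norm_sq, ← Complex.mul_conj, map_sum, Finset.sum_mul_sum]
    refine Finset.sum_congr rfl fun k _ => Finset.sum_congr rfl fun l _ => ?_
    rw [sub_eq_add_neg, UnitAddTorus.mFourier_add, UnitAddTorus.mFourier_neg]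
  have hint : ∀ k : Fin d → ℤ, Integrable (fun x : Tor d => UnitAddTorus.mFourier k x) := by
    intro k
    exact (UnitAddTorus.mFourier k).continuous.integrable_of_hasCompactSupport
      (HasCompactSupport.of_compactSpace _)
  have h2 : ((∫ x : Tor d, ‖∑ k ∈ S, UnitAddTorus.mFourier k x‖ ^ 2 : ℝ) : ℂ) = S.card := by
    rw [← integral_complex_ofReal]
    simp_rw [h1]
    rw [integral_finsetSum _ (fun k _ => integrable_finsetSum _ (fun l _ => hint _))]
    have : ∀ k ∈ S, ∫ x : Tor d, ∑ l ∈ S, UnitAddTorus.mFourier (k - l) x = 1 := by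
      intro k hk
      rw [integral_finsetSum _ (fun l _ => hint _)]
      simp_rw [integral_mFourier, sub_eq_zero]
      simp [hk]
    rw [Finset.sum_congr rfl this]
    simp
  exact_mod_cast h2

lemma mFourier_smul {d : ℕ} (m : ℕ) (k : Fin d → ℤ) (x : Tor d) :
    UnitAddTorus.mFourier ((m : ℤ) • k) x = UnitAddTorus.mFourier k (m • x) := by
  simp only [UnitAddTorus.mFourier, ContinuousMap.coe_mk, fourier_apply, Pi.smul_apply,
    smul_eq_mul]
  refine Finset.prod_congr rfl fun i _ => ?_
  rw [mul_comm, mul_smul, natCast_zsmul]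

/-- rounding to the grid of `m`-torsion points -/
lemma exists_round (d m : ℕ) (hm : 0 < m) :
    ∃ Φ : Tor d → Tor d, Measurable Φ ∧ (∀ x, m • Φ x = 0) ∧ ∀ x, dist (Φ x) x ≤ 1 / m := by
  let φ : UnitAddCircle → UnitAddCircle := fun x =>
    (((⌊(m : ℝ) * (AddCircle.measurableEquivIco 1 0 x : ℝ)⌋ : ℝ) / m : ℝ) : UnitAddCircle)
  have hm' : (0 : ℝ) < m := by exact_mod_cast hm
  have hφ : Measurable φ := by
    apply AddCircle.measurable_mk'.comp
    apply Measurable.div_const
    apply (measurable_of_countable (fun z : ℤ => (z : ℝ))).comp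
    apply Int.measurable_floor.comp
    apply Measurable.const_mul
    exact measurable_subtype_coe.comp (AddCircle.measurableEquivIco 1 0).measurable
  refine ⟨fun x i => φ (x i), ?_, ?_, ?_⟩
  · exact measurable_pi_lambda _ fun i => hφ.comp (measurable_pi_apply i)
  · intro x
    funext i
    simp only [Pi.smul_apply, Pi.zero_apply, φ]
    rw [← AddCircle.coe_nsmul, nsmul_eq_mul, mul_div_cancel₀ _ hm'.ne', AddCircle.coe_eq_zero_iff]
    exact ⟨⌊(m : ℝ) * (AddCircle.measurableEquivIco 1 0 (x i) : ℝ)⌋, by simp⟩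
  · intro x
    rw [dist_pi_le_iff (by positivity)]
    intro i
    set t : ℝ := (AddCircle.measurableEquivIco 1 0 (x i) : ℝ) with ht
    have hx : x i = (t : UnitAddCircle) := (AddCircle.coe_equivIco (a := 0) (y := x i)).symm
    simp only [φ]
    rw [← ht]
    nth_rewrite 1 [hx]
    rw [dist_eq_norm, ← AddCircle.coe_sub]
    refine le_trans QuotientAddGroup.norm_mk_le_norm ?_
    have h1 := Int.floor_le ((m : ℝ) * t)
    have h2 := Int.lt_floor_add_one ((m : ℝ) * t)
    have : (⌊(m : ℝ) * t⌋ : ℝ) / m - t = ((⌊(m : ℝ) * t⌋ : ℝ) - m * t) / m := by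
      field_simp
    rw [this, Real.norm_eq_abs, abs_div, abs_of_pos hm']
    apply div_le_div_of_nonneg_right _ hm'.le
    rw [abs_le]
    constructor <;> linarith

lemma vol_ball_le {d : ℕ} (x : Tor d) {r : ℝ} (hr : 0 ≤ r) :
    volume (closedBall x r) ≤ ENNReal.ofReal ((2 * r) ^ d) := by
  rw [volume_pi_closedBall x hr]
  simp only [AddCircle.volume_closedBall, Finset.prod_const, Finset.card_univ, Fintype.card_fin]
  rw [ENNReal.ofReal_pow (by positivity)]
  gcongr
  exact min_le_right _ _

lemma vol_ball_eq {d : ℕ} (x : Tor d) {r : ℝ} (hr : 0 ≤ r) (hr2 : 2 * r ≤ 1) :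
    volume (closedBall x r) = ENNReal.ofReal ((2 * r) ^ d) := by
  rw [volume_pi_closedBall x hr]
  simp only [AddCircle.volume_closedBall, Finset.prod_const, Finset.card_univ, Fintype.card_fin]
  rw [ENNReal.ofReal_pow (by positivity), min_eq_right hr2]

/-- the periodic measure: uniform on small balls about the `m`-torsion points -/
lemma exists_periodic_measure (d m : ℕ) (hm : 0 < m) (ρ : ℝ) (hρ : 0 < ρ) (hρ2 : 2 * ρ ≤ 1) :
    ∃ ν : Measure (Tor d), IsProbabilityMeasure ν ∧ (∀ᵐ z ∂ν, ‖m • z‖ ≤ m * ρ) ∧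
      ∀ (x₀ : Tor d) (r : ℝ), 0 < r →
        ν (closedBall x₀ r) ≤ ENNReal.ofReal ((2 * (r + ρ + 1 / m)) ^ d * min 1 ((r / ρ) ^ d)) := by
  obtain ⟨Φ, hΦm, hΦ0, hΦd⟩ := exists_round d m hm
  have hvol : volume (closedBall (0 : Tor d) ρ) = ENNReal.ofReal ((2 * ρ) ^ d) :=
    vol_ball_eq 0 hρ.le hρ2
  have hvol0 : volume (closedBall (0 : Tor d) ρ) ≠ 0 := by
    rw [hvol]
    simp only [ne_eq, ENNReal.ofReal_eq_zero, not_le]
    positivity
  let κ : Measure (Tor d) := cond volume (closedBall (0 : Tor d) ρ)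
  have hκ : IsProbabilityMeasure κ := cond_isProbabilityMeasure hvol0
  let F : Tor d × Tor d → Tor d := fun p => Φ p.1 + p.2
  have hF : Measurable F := (hΦm.comp measurable_fst).add measurable_snd
  refine ⟨Measure.map F (volume.prod κ), Measure.isProbabilityMeasure_map hF.aemeasurable, ?_, ?_⟩
  · have hmeas : MeasurableSet {z : Tor d | ‖m • z‖ ≤ m * ρ} := by
      apply IsClosed.measurableSet
      apply isClosed_le _ continuous_const
      fun_prop
    rw [ae_map_iff hF.aemeasurable hmeas]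
    have h1 : ∀ᵐ y ∂κ, y ∈ closedBall (0 : Tor d) ρ := ae_cond_mem measurableSet_closedBall
    have h2 : ∀ᵐ p ∂(volume.prod κ : Measure (Tor d × Tor d)), p.2 ∈ closedBall (0 : Tor d) ρ :=
      Measure.quasiMeasurePreserving_snd.ae h1
    filter_upwards [h2] with p hp
    simp only [F, smul_add, hΦ0, zero_add]
    refine le_trans (norm_nsmul_le) ?_
    gcongr
    simpa using hp
  · intro x₀ r hr
    rw [Measure.map_apply hF measurableSet_closedBall,
      Measure.prod_apply (hF measurableSet_closedBall)]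
    have hsec : ∀ x : Tor d, κ (Prod.mk x ⁻¹' (F ⁻¹' closedBall x₀ r)) ≤
        (closedBall x₀ (r + ρ + 1 / m)).indicator
          (fun _ => ENNReal.ofReal (min 1 ((r / ρ) ^ d))) x := by
      intro x
      have hset : Prod.mk x ⁻¹' (F ⁻¹' closedBall x₀ r) = closedBall (x₀ - Φ x) r := by
        ext y
        simp only [F, Set.mem_preimage, mem_closedBall, dist_eq_norm]
        congr! 2
        abel
      rw [hset]
      by_cases hx : x ∈ closedBall x₀ (r + ρ + 1 / m)
      · rw [Set.indicator_of_mem hx, ENNReal.ofReal_min, le_min_iff]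
        refine ⟨by simpa using prob_le_one, ?_⟩
        simp only [κ]
        rw [cond_apply measurableSet_closedBall, hvol]
        calc (ENNReal.ofReal ((2 * ρ) ^ d))⁻¹ *
              volume (closedBall (0 : Tor d) ρ ∩ closedBall (x₀ - Φ x) r)
            ≤ (ENNReal.ofReal ((2 * ρ) ^ d))⁻¹ * ENNReal.ofReal ((2 * r) ^ d) := by
              gcongr
              exact le_trans (measure_mono Set.inter_subset_right) (vol_ball_le _ hr.le)
          _ = ENNReal.ofReal ((r / ρ) ^ d) := by
              rw [← ENNReal.ofReal_inv_of_pos (by positivity),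
                ← ENNReal.ofReal_mul (by positivity)]
              congr 1
              rw [div_pow, mul_pow, mul_pow]
              field_simp
      · rw [Set.indicator_of_notMem hx]
        simp only [κ]
        rw [cond_apply measurableSet_closedBall]
        have : closedBall (0 : Tor d) ρ ∩ closedBall (x₀ - Φ x) r = ∅ := by
          rw [Set.eq_empty_iff_forall_notMem]
          rintro y ⟨hy1, hy2⟩
          apply hx
          rw [mem_closedBall] at hy1 hy2 ⊢
          have h3 := hΦd x
          rw [dist_eq_norm] at hy1 hy2 h3 ⊢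
          have : x - x₀ = (y - (x₀ - Φ x)) - (y - 0) - (Φ x - x) := by abel
          rw [this]
          refine le_trans (norm_sub_le _ _) ?_
          have := norm_sub_le (y - (x₀ - Φ x)) (y - 0)
          linarith
        rw [this]
        simp
    refine le_trans (lintegral_mono hsec) ?_
    rw [lintegral_indicator measurableSet_closedBall, setLIntegral_const, mul_comm,
      ENNReal.ofReal_mul (by positivity)]
    gcongr
    exact vol_ball_le _ (by positivity)

end Pool.Agent.Lib.MP_c22f6b_an
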