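import Pool.Agent.Lib.MP_c22f6b_an.Basic

set_option autoImplicit false

namespace Pool.Agent.Lib.MP_c22f6b_an

/-- branching numbers whose products follow a geometric sequence -/
lemma exists_branching (b : ℝ) (hb : 1 ≤ b) :
    ∃ K : ℕ → ℕ, ∀ j, 0 < K j ∧ (K j : ℝ) ≤ 2 * b ∧
      b ^ j ≤ 2 * ∏ l ∈ Finset.range j, (K l : ℝ) ∧ ∏ l ∈ Finset.range j, (K l : ℝ) ≤ b ^ j := by
  obtain ⟨P, hP0, hP1⟩ : ∃ P : ℕ → ℕ, P 0 = 1 ∧ ∀ j, P (j + 1) = P j * ⌊b ^ (j + 1) / P j⌋₊ :=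
    ⟨fun j => Nat.rec 1 (fun j p => p * ⌊b ^ (j + 1) / p⌋₊) j, rfl, fun _ => rfl⟩
  have hb0 : 0 < b := by linarith
  have h0 : ∀ j, b ^ j ≤ 2 * P j → (P j : ℝ) ≤ b ^ j →
      0 < (P j : ℝ) ∧ 1 ≤ b ^ (j + 1) / P j ∧ b ^ (j + 1) / P j ≤ 2 * b := by
    intro j h1 h2
    have h3 : 0 < b ^ j := by positivity
    have h4 : 0 < (P j : ℝ) := by linarith
    refine ⟨h4, ?_, ?_⟩
    · rw [le_div_iff₀ h4, pow_succ]
      nlinarith
    · rw [div_le_iff₀ h4, pow_succ]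
      nlinarith
  have h1 : ∀ j, b ^ j ≤ 2 * P j ∧ (P j : ℝ) ≤ b ^ j := by
    intro j
    induction j with
    | zero => simp [hP0]
    | succ j ih =>
      obtain ⟨a1, a2, -⟩ := h0 j ih.1 ih.2
      have a3 := Nat.floor_le (zero_le_one.trans a2)
      have a4 := Nat.lt_floor_add_one (b ^ (j + 1) / P j)
      have a5 : (1 : ℝ) ≤ ⌊b ^ (j + 1) / P j⌋₊ := by exact_mod_cast Nat.floor_pos.2 a2
      rw [hP1]
      push_cast
      rw [le_div_iff₀ a1] at a3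
      rw [div_lt_iff₀ a1] at a4
      constructor <;> nlinarith
  have h2 : ∀ j, ∏ l ∈ Finset.range j, (⌊b ^ (l + 1) / P l⌋₊ : ℝ) = P j := by
    intro j
    induction j with
    | zero => simp [hP0]
    | succ j ih => rw [Finset.prod_range_succ, ih, hP1, Nat.cast_mul]
  refine ⟨fun j => ⌊b ^ (j + 1) / P j⌋₊, fun j => ?_⟩
  obtain ⟨-, a2, a3⟩ := h0 j (h1 j).1 (h1 j).2
  rw [h2]
  exact ⟨Nat.floor_pos.2 a2, (Nat.floor_le (zero_le_one.trans a2)).trans a3, h1 j⟩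

/-- lattice points on circles whose differences to a base point are lacunary -/
lemma exists_lacunary (M : ℕ) (hM : 2 ≤ M) :
    ∃ v u R : ℕ → ℤ, (∀ j, 8 * (M : ℤ) ^ j ≤ 5 * v j ∧ v j ≤ 4 * M ^ j ∧ M * |u j| ≤ 4 * M ^ j) ∧
      ∀ N j, N ^ 2 ≤ j → j < N ^ 2 + N → v j ^ 2 + (R N + u j) ^ 2 = R N ^ 2 := by
  have hM' : (2 : ℤ) ≤ M := by exact_mod_cast hM
  let R : ℕ → ℤ := fun N => ∏ b ∈ Finset.range N, ((M : ℤ) ^ (2 * (b + 1)) + 1)
  have hR : ∀ N, (M : ℤ) ^ (N ^ 2 + N) ≤ R N ∧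
      2 ^ N * R N ≤ (2 * 2 ^ N - 1) * (M : ℤ) ^ (N ^ 2 + N) := by
    intro N
    induction N with
    | zero => simp [R]
    | succ N ih =>
      have h1 : R (N + 1) = R N * (M ^ (2 * (N + 1)) + 1) := Finset.prod_range_succ _ _
      have h2 : (M : ℤ) ^ ((N + 1) ^ 2 + (N + 1)) = M ^ (N ^ 2 + N) * M ^ (2 * (N + 1)) := by
        rw [← pow_add]
        congr 1
        ring
      have h3 : (4 : ℤ) * 2 ^ N ≤ M ^ (2 * (N + 1)) := by
        calc (4 : ℤ) * 2 ^ N = 2 ^ (N + 2) := by ring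
          _ ≤ 2 ^ (2 * (N + 1)) := pow_le_pow_right₀ one_le_two (by omega)
          _ ≤ _ := by gcongr
      have h4 : (0 : ℤ) < M ^ (N ^ 2 + N) := by positivity
      have h5 : (0 : ℤ) < 2 ^ N := by positivity
      rw [h1, h2, pow_succ 2]
      generalize (M : ℤ) ^ (N ^ 2 + N) = A at *
      generalize (M : ℤ) ^ (2 * (N + 1)) = T at *
      generalize (2 : ℤ) ^ N = t at *
      generalize R N = r at *
      constructor
      · nlinarith [ih.1]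
      · have h6 : t * r * (2 * (T + 1)) ≤ (2 * t - 1) * A * (2 * (T + 1)) :=
          mul_le_mul_of_nonneg_right ih.2 (by linarith)
        nlinarith
  have key : ∀ j, ∃ v u : ℤ, (8 * (M : ℤ) ^ j ≤ 5 * v ∧ v ≤ 4 * M ^ j ∧ M * |u| ≤ 4 * M ^ j) ∧
      (j < j.sqrt ^ 2 + j.sqrt → v ^ 2 + (R j.sqrt + u) ^ 2 = R j.sqrt ^ 2) := by
    intro j
    have hj : (0 : ℤ) < M ^ j := by positivity
    by_cases h : j < j.sqrt ^ 2 + j.sqrt
    swap
    · exact ⟨2 * M ^ j, 0, ⟨by linarith, by linarith, by simp⟩, fun h' => absurd h' h⟩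
    have h1 := Nat.sqrt_le' j
    generalize j.sqrt = N at *
    obtain ⟨b, hb⟩ : ∃ b, N ^ 2 + N = j + (b + 1) := ⟨N ^ 2 + N - j - 1, by omega⟩
    obtain ⟨Q, hQ⟩ : (M : ℤ) ^ (2 * (b + 1)) + 1 ∣ R N :=
      Finset.dvd_prod_of_mem (fun b => (M : ℤ) ^ (2 * (b + 1)) + 1) (Finset.mem_range.2 (by omega))
    obtain ⟨h2, h3⟩ := hR N
    have h4 : (M : ℤ) ≤ M ^ (b + 1) := le_self_pow₀ (by linarith) (by omega)
    rw [hb, pow_add] at h2 h3
    rw [mul_comm 2, pow_mul] at hQ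
    have h5 : (0 : ℤ) < 2 ^ N := by positivity
    refine ⟨2 * M ^ (b + 1) * Q, -2 * Q, ?_, fun _ => by rw [hQ]; ring⟩
    generalize (M : ℤ) ^ (b + 1) = T at *
    generalize (M : ℤ) ^ j = A at *
    have hT : 0 < T := by linarith
    have h6 : R N ≤ 2 * (A * T) := le_of_mul_le_mul_left (by nlinarith [mul_pos hj hT]) h5
    rw [hQ] at h2 h6
    have hQ0 : 0 < Q := (pos_iff_pos_of_mul_pos ((mul_pos hj hT).trans_le h2)).1 (by positivity)
    have h7 : T * Q ≤ 2 * A := le_of_mul_le_mul_left (by nlinarith) hT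
    refine ⟨le_of_mul_le_mul_left ?_ hT, by linarith, ?_⟩
    · have : 4 * Q ≤ T ^ 2 * Q := mul_le_mul_of_nonneg_right (by nlinarith) hQ0.le
      nlinarith
    · rw [abs_of_neg (by linarith)]
      nlinarith
  choose v u h1 h2 using key
  refine ⟨v, u, R, h1, fun N j h3 h4 => ?_⟩
  have h5 : j.sqrt = N := (Nat.eq_sqrt'.2 ⟨h3, by nlinarith⟩).symm
  have := h2 j
  rw [h5] at this
  exact this h4

/-- a shift of the digit window that brings the phase close to an integer -/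
lemma exists_shift (θ η L : ℝ) (hη : 0 < η) (hL : 1 ≤ η * L) :
    ∃ s z : ℤ, 0 ≤ s ∧ (s : ℝ) ≤ L + 1 ∧ 0 ≤ θ + η * s - z ∧ θ + η * s - z ≤ η := by
  have h1 := Int.le_ceil θ
  have h2 := Int.ceil_lt_add_one θ
  have h3 := Int.le_ceil ((⌈θ⌉ - θ) / η)
  have h4 := Int.ceil_lt_add_one ((⌈θ⌉ - θ) / η)
  have h5 : (⌈θ⌉ - θ) / η ≤ L := by
    rw [div_le_iff₀ hη]
    linarith
  refine ⟨⌈(⌈θ⌉ - θ) / η⌉, ⌈θ⌉, Int.ceil_nonneg (div_nonneg (by linarith) hη.le), by linarith,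
    ?_, ?_⟩
  · rw [div_le_iff₀ hη] at h3
    linarith
  · rw [← sub_lt_iff_lt_add, lt_div_iff₀ hη] at h4
    linarith

end Pool.Agent.Lib.MP_c22f6b_an
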