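import Pool.Agent.Lib.MP_c22f6b_an.Basic

set_option autoImplicit false

namespace Pool.Agent.Lib.MP_c22f6b_an

open MeasureTheory Metric
open scoped ENNReal

lemma mFourier_near {d : ℕ} (k : Fin d → ℤ) (w : Tor d) {R δ : ℝ} (hk : ∀ i, |(k i : ℝ)| ≤ R)
    (hw : ‖w‖ ≤ δ) : ‖UnitAddTorus.mFourier k w - 1‖ ≤ 8 * d * R * δ := by
  have h1 : ∀ x : UnitAddCircle, ∃ t : ℝ, (t : UnitAddCircle) = x ∧ |t| = ‖x‖ := by
    intro x
    induction x using QuotientAddGroup.induction_on with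
    | H s =>
      refine ⟨s - round s, ?_, UnitAddCircle.norm_eq.symm⟩
      rw [AddCircle.coe_sub, sub_eq_self, AddCircle.coe_eq_zero_iff]
      exact ⟨round s, by simp⟩
  choose t ht ht' using fun i => h1 (w i)
  have h2 : UnitAddTorus.mFourier k w =
      Complex.exp (Complex.I * (∑ i, 2 * Real.pi * k i * t i : ℝ)) := by
    simp only [UnitAddTorus.mFourier, ContinuousMap.coe_mk]
    push_cast
    rw [Finset.mul_sum, Complex.exp_sum]
    refine Finset.prod_congr rfl fun i _ => ?_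
    rw [← ht i, fourier_coe_apply]
    congr 1
    push_cast
    ring
  rw [h2]
  refine Real.norm_exp_I_mul_ofReal_sub_one_le.trans ((norm_sum_le _ _).trans ?_)
  have h3 : ∀ i ∈ (Finset.univ : Finset (Fin d)), ‖2 * Real.pi * k i * t i‖ ≤ 8 * R * δ := by
    intro i _
    have h4 : |t i| ≤ δ := (ht' i).le.trans ((norm_le_pi_norm w i).trans hw)
    have h5 : 0 ≤ R := (abs_nonneg _).trans (hk i)
    rw [Real.norm_eq_abs, abs_mul, abs_mul, abs_of_pos Real.two_pi_pos]
    have h6 := hk i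
    have h7 : 2 * Real.pi ≤ 8 := by linarith [Real.pi_le_four]
    gcongr
  refine (Finset.sum_le_sum h3).trans (le_of_eq ?_)
  simp
  ring

/-- Many lattice points on a sphere of controlled radius. -/
lemma exists_many_points (d : ℕ) (hd : 3 ≤ d) (L : ℕ) (hL : 0 < L) :
    ∃ (n : ℕ) (S : Finset (Fin d → ℤ)), L ^ (d - 2) ≤ S.card ∧ (∀ k ∈ S, ∑ i, k i ^ 2 = (n : ℤ)) ∧
      (n : ℝ) ≤ ((d : ℝ) ^ 2 * L) ^ 2 := by
  obtain ⟨f, hf⟩ : ∃ f, d = f + 3 := ⟨d - 3, by omega⟩
  have hd0 : 0 < d := by omega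
  set R := d * L with hR
  have hR0 : 0 < R := by positivity
  let T : Finset (Fin d → ℤ) := Fintype.piFinset fun _ => Finset.Ico (0 : ℤ) R
  have hT : T.card = R ^ d := by simp [T]
  have hmap : ∀ k ∈ T, (∑ i, k i ^ 2).toNat ∈ Finset.range (d * R ^ 2) := by
    intro k hk
    have h1 : ∀ i, k i ^ 2 < (R : ℤ) ^ 2 := fun i => by
      have := Finset.mem_Ico.1 (Fintype.mem_piFinset.1 hk i)
      exact pow_lt_pow_left₀ this.2 this.1 two_ne_zero
    have h2 : ∑ i, k i ^ 2 < ∑ _i : Fin d, (R : ℤ) ^ 2 :=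
      Finset.sum_lt_sum_of_nonempty ⟨⟨0, hd0⟩, Finset.mem_univ _⟩ fun i _ => h1 i
    rw [Finset.sum_const, Finset.card_univ, Fintype.card_fin, nsmul_eq_mul] at h2
    rw [Finset.mem_range, Int.toNat_lt (by positivity)]
    exact_mod_cast h2
  obtain ⟨n, hn, h⟩ := Finset.exists_le_card_fiber_of_mul_le_card_of_maps_to hmap
    ⟨0, Finset.mem_range.2 (by positivity)⟩ (n := d ^ f * L ^ (f + 1))
    (by
      rw [Finset.card_range, hT]
      apply le_of_eq
      calc d * R ^ 2 * (d ^ f * L ^ (f + 1)) = R ^ (f + 3) := by rw [hR]; ring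
        _ = R ^ d := by rw [← hf])
  refine ⟨n, T.filter fun k => (∑ i, k i ^ 2).toNat = n, le_trans ?_ h, fun k hk => ?_, ?_⟩
  · rw [show d - 2 = f + 1 by omega]
    exact Nat.le_mul_of_pos_left _ (by positivity)
  · rw [← (Finset.mem_filter.1 hk).2, Int.toNat_of_nonneg (by positivity)]
  · have h1 : n ≤ (d ^ 2 * L) ^ 2 := by
      refine (Finset.mem_range.1 hn).le.trans ?_
      rw [hR]
      have : d ≤ d ^ 2 := Nat.le_self_pow two_ne_zero d
      calc d * (d * L) ^ 2 ≤ d ^ 2 * (d * L) ^ 2 := by gcongr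
        _ = (d ^ 2 * L) ^ 2 := by ring
    exact_mod_cast h1

/-- One scale: a measure with a uniform regularity constant, concentrated where a dilated
eigenfunction is large. -/
lemma one_scale (d : ℕ) (hd : 2 ≤ d) (α : ℝ) (hα0 : 0 ≤ α) (hα : α < d) (n : ℕ)
    (S : Finset (Fin d → ℤ)) (hSn : ∀ k ∈ S, ∑ i, k i ^ 2 = (n : ℤ)) (R : ℝ) (hR : 1 ≤ R)
    (hn : (n : ℝ) ≤ R ^ 2) :
    ∃ ν : Measure (Tor d), IsProbabilityMeasure ν ∧
      (∀ (x₀ : Tor d) (r : ℝ), 0 < r → ν (closedBall x₀ r) ≤ ENNReal.ofReal (6 ^ d * r ^ α)) ∧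
      ∃ (n' : ℕ) (S' : Finset (Fin d → ℤ)), S'.card = S.card ∧
        (∀ k ∈ S', ∑ i, k i ^ 2 = (n' : ℤ)) ∧
        1 + √n' ≤ 2 * (16 * d * R) ^ (d / (d - α)) ∧
        ∀ᵐ z ∂ν, (S.card : ℝ) / 2 ≤ ‖∑ k ∈ S', UnitAddTorus.mFourier k z‖ := by
  have hd' : (2 : ℝ) ≤ d := by exact_mod_cast hd
  set A : ℝ := 16 * d * R with hA
  have hA1 : 32 * R ≤ A := by rw [hA]; nlinarith
  have hA2 : 1 ≤ A := by linarith
  have hA0 : 0 < A := by linarith
  set δ : ℝ := 1 / A with hδdef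
  have hδ : 0 < δ := by positivity
  have hδ1 : δ ≤ 1 / 2 := one_div_le_one_div_of_le two_pos (by linarith)
  have hball : ∀ w : Tor d, ‖w‖ ≤ δ → ∀ k ∈ S, ‖UnitAddTorus.mFourier k w - 1‖ ≤ 1 / 2 := by
    intro w hw k hk
    refine (mFourier_near k w (R := R) (fun i => ?_) hw).trans (le_of_eq ?_)
    · refine abs_le_of_sq_le_sq' ?_ (by linarith) |> abs_le.2
      refine le_trans ?_ hn
      have h1 := Finset.single_le_sum (f := fun i => k i ^ 2) (fun i _ => by positivity)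
        (Finset.mem_univ i)
      rw [hSn k hk] at h1
      exact_mod_cast h1
    · rw [hδdef, hA]
      field_simp
      norm_num
  have hdα : 0 < (d : ℝ) - α := by linarith
  set P : ℝ := A ^ (α / (d - α)) with hP
  have hP1 : 1 ≤ P := Real.one_le_rpow hA2 (by positivity)
  set m : ℕ := ⌈P⌉₊ with hm
  have hm2 : P ≤ m := Nat.le_ceil P
  have hm1 : (1 : ℝ) ≤ m := hP1.trans hm2
  have hm4 : (m : ℝ) ≤ 2 * P := by linarith [Nat.ceil_lt_add_one (zero_le_one.trans hP1)]
  have hmpos : (0 : ℝ) < m := by linarith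
  have hm0 : 0 < m := by exact_mod_cast hmpos
  have hm3 : A ^ α ≤ (m : ℝ) ^ ((d : ℝ) - α) := by
    calc A ^ α = P ^ ((d : ℝ) - α) := by
          rw [hP, ← Real.rpow_mul hA0.le, div_mul_cancel₀ _ hdα.ne']
      _ ≤ _ := by gcongr
  have hρ1 : δ / m ≤ 1 / m := by gcongr; linarith
  have hρ2 : 2 * (δ / m) ≤ 1 := by
    have : δ / m ≤ δ := div_le_self hδ.le hm1
    linarith
  obtain ⟨ν, hν, hνae, hνreg⟩ := exists_periodic_measure d m hm0 (δ / m) (by positivity) hρ2
  refine ⟨ν, hν, ?_, m ^ 2 * n, S.image (fun k => (m : ℤ) • k), ?_, ?_, ?_, ?_⟩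
  · intro x₀ r hr
    rcases le_or_gt 1 r with h1 | h1
    · refine le_trans prob_le_one ?_
      rw [← ENNReal.ofReal_one]
      apply ENNReal.ofReal_le_ofReal
      have h2 : (1 : ℝ) ≤ 6 ^ d := one_le_pow₀ (by norm_num)
      have h3 : (1 : ℝ) ≤ r ^ α := Real.one_le_rpow h1 hα0
      nlinarith
    refine le_trans (hνreg x₀ r hr) (ENNReal.ofReal_le_ofReal ?_)
    rcases le_or_gt (1 / (m : ℝ)) r with h2 | h2
    · calc (2 * (r + δ / m + 1 / m)) ^ d * min 1 ((r / (δ / m)) ^ d)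
          ≤ (6 * r) ^ d * 1 := by
            gcongr ?_ ^ d * ?_
            · linarith
            · exact min_le_left _ _
        _ = 6 ^ d * r ^ (d : ℝ) := by rw [mul_one, mul_pow, Real.rpow_natCast]
        _ ≤ 6 ^ d * r ^ α := by
            gcongr 6 ^ d * ?_
            exact Real.rpow_le_rpow_of_exponent_ge hr h1.le hα.le
    · have h3 : min 1 ((r / (δ / m)) ^ d) ≤ (r / (δ / m)) ^ α := by
        have h4 : 0 < r / (δ / m) := by positivity
        rcases le_or_gt 1 (r / (δ / m)) with h5 | h5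
        · exact (min_le_left _ _).trans (Real.one_le_rpow h5 hα0)
        · refine (min_le_right _ _).trans ?_
          rw [← Real.rpow_natCast]
          exact Real.rpow_le_rpow_of_exponent_ge h4 h5.le hα.le
      have h4 : (m : ℝ) ^ d = m ^ α * m ^ ((d : ℝ) - α) := by
        rw [← Real.rpow_add hmpos, add_sub_cancel, Real.rpow_natCast]
      calc (2 * (r + δ / m + 1 / m)) ^ d * min 1 ((r / (δ / m)) ^ d)
          ≤ (6 * (1 / m)) ^ d * (r / (δ / m)) ^ α := by
            gcongr ?_ ^ d * ?_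
            linarith
        _ = 6 ^ d * r ^ α * (A ^ α / (m : ℝ) ^ ((d : ℝ) - α)) := by
            rw [show r / (δ / m) = r * (m * A) by rw [hδdef]; field_simp,
              Real.mul_rpow hr.le (by positivity), Real.mul_rpow hmpos.le hA0.le, mul_pow, one_div,
              inv_pow, h4]
            field_simp
        _ ≤ 6 ^ d * r ^ α := mul_le_of_le_one_right (by positivity)
            (div_le_one_of_le₀ hm3 (by positivity))
  · rw [Finset.card_image_of_injective _ (smul_right_injective _ (by exact_mod_cast hm0.ne'))]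
  · intro v hv
    obtain ⟨k, hk, rfl⟩ := Finset.mem_image.mp hv
    simp only [Pi.smul_apply, smul_eq_mul, mul_pow, ← Finset.mul_sum, hSn k hk]
    push_cast
    ring
  · have h1 : √((m ^ 2 * n : ℕ) : ℝ) ≤ m * R := by
      rw [Real.sqrt_le_iff]
      refine ⟨by positivity, ?_⟩
      push_cast
      rw [mul_pow]
      gcongr
    have h2 : A ^ ((d : ℝ) / (d - α)) = P * A := by
      rw [hP, ← Real.rpow_add_one hA0.ne']
      congr 1
      field_simp
      ring
    rw [h2]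
    have h3 : (m : ℝ) * R ≤ 2 * P * R := by gcongr
    nlinarith
  · filter_upwards [hνae] with z hz
    rw [Finset.sum_image (fun a _ b _ h =>
      smul_right_injective _ (by exact_mod_cast hm0.ne' : (m : ℤ) ≠ 0) h)]
    simp_rw [mFourier_smul]
    rw [mul_div_cancel₀ _ hmpos.ne'] at hz
    have h1 := hball _ hz
    have h2 : ‖∑ k ∈ S, (UnitAddTorus.mFourier k (m • z) - 1)‖ ≤ (S.card : ℝ) / 2 := by
      refine le_trans (norm_sum_le _ _) (le_trans (Finset.sum_le_sum h1) ?_)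
      rw [Finset.sum_const, nsmul_eq_mul]
      linarith
    rw [Finset.sum_sub_distrib, Finset.sum_const, nsmul_eq_mul, mul_one] at h2
    have h3 := norm_sub_norm_le (S.card : ℂ) (∑ k ∈ S, UnitAddTorus.mFourier k (m • z))
    rw [norm_sub_rev, Complex.norm_natCast] at h3
    linarith

/-- Summing the scales. -/
lemma sum_scales (d : ℕ) (α : ℝ) (ν : ℕ → Measure (Tor d)) (hνp : ∀ j, IsProbabilityMeasure (ν j))
    (hνreg : ∀ j (x₀ : Tor d) (r : ℝ), 0 < r →
      ν j (closedBall x₀ r) ≤ ENNReal.ofReal (6 ^ d * r ^ α))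
    (S : ℕ → Finset (Fin d → ℤ))
    (hνae : ∀ j, ∀ᵐ z ∂ν j, ((S j).card : ℝ) / 2 ≤ ‖∑ k ∈ S j, UnitAddTorus.mFourier k z‖) :
    ∃ μ : Measure (Tor d), IsProbabilityMeasure μ ∧
      (∀ (x₀ : Tor d) (r : ℝ), 0 < r →
        μ {x | Real.sqrt (∑ i, ‖x i - x₀ i‖ ^ 2) < r} ≤ ENNReal.ofReal (6 ^ d * r ^ α)) ∧
      ∀ j, (2⁻¹ : ℝ) ^ (j + 1) * (((S j).card : ℝ) / 2) ^ 2 ≤
        ∫ x, ‖∑ k ∈ S j, UnitAddTorus.mFourier k x‖ ^ 2 ∂μ := by
  have hgeom : ∑' j : ℕ, (2⁻¹ : ℝ≥0∞) ^ (j + 1) = 1 := by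
    rw [ENNReal.tsum_geometric_add_one, ENNReal.one_sub_inv_two, inv_inv]
    exact ENNReal.inv_mul_cancel (by norm_num) (by norm_num)
  let μ : Measure (Tor d) := Measure.sum fun j : ℕ => (2⁻¹ : ℝ≥0∞) ^ (j + 1) • ν j
  have hμ : IsProbabilityMeasure μ := by
    constructor
    simp only [μ]
    rw [Measure.sum_apply _ MeasurableSet.univ]
    simp only [Measure.smul_apply, measure_univ, smul_eq_mul, mul_one]
    exact hgeom
  refine ⟨μ, hμ, ?_, ?_⟩
  · intro x₀ r hr
    have hsub : {x : Tor d | Real.sqrt (∑ i, ‖x i - x₀ i‖ ^ 2) < r} ⊆ closedBall x₀ r := by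
      intro x hx
      rw [mem_closedBall, dist_pi_le_iff hr.le]
      intro i
      rw [dist_eq_norm]
      refine le_trans ?_ (le_of_lt hx)
      apply Real.le_sqrt_of_sq_le
      exact Finset.single_le_sum (f := fun i => ‖x i - x₀ i‖ ^ 2) (fun i _ => by positivity)
        (Finset.mem_univ i)
    refine le_trans (measure_mono hsub) ?_
    simp only [μ]
    rw [Measure.sum_apply _ measurableSet_closedBall]
    simp only [Measure.smul_apply, smul_eq_mul]
    calc ∑' j : ℕ, (2⁻¹ : ℝ≥0∞) ^ (j + 1) * ν j (closedBall x₀ r)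
        ≤ ∑' j : ℕ, (2⁻¹ : ℝ≥0∞) ^ (j + 1) * ENNReal.ofReal (6 ^ d * r ^ α) := by
          gcongr with j
          exact hνreg j x₀ r hr
      _ = ENNReal.ofReal (6 ^ d * r ^ α) := by
          rw [ENNReal.tsum_mul_right, hgeom, one_mul]
  · intro j
    let f : Tor d → ℝ := fun x => ‖∑ k ∈ S j, UnitAddTorus.mFourier k x‖ ^ 2
    have hf : Continuous f := by
      apply Continuous.pow
      apply Continuous.norm
      exact continuous_finsetSum _ fun k _ => (UnitAddTorus.mFourier k).continuous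
    have hfi : ∀ (ρ : Measure (Tor d)) [IsFiniteMeasure ρ], Integrable f ρ := fun ρ _ =>
      hf.integrable_of_hasCompactSupport (HasCompactSupport.of_compactSpace _)
    have h2 : ∫ x, f x ∂((2⁻¹ : ℝ≥0∞) ^ (j + 1) • ν j) ≤ ∫ x, f x ∂μ :=
      integral_mono_measure (Measure.le_sum (fun j : ℕ => (2⁻¹ : ℝ≥0∞) ^ (j + 1) • ν j) j)
        (Filter.Eventually.of_forall fun x => by simp only [f]; positivity) (hfi μ)
    have := hνp j
    have h3 : (((S j).card : ℝ) / 2) ^ 2 ≤ ∫ x, f x ∂(ν j) := by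
      have h4 : ∫ _ : Tor d, (((S j).card : ℝ) / 2) ^ 2 ∂(ν j) ≤ ∫ x, f x ∂(ν j) := by
        apply integral_mono_ae (integrable_const _) (hfi _)
        filter_upwards [hνae j] with z hz
        simp only [f]
        gcongr
      simpa using h4
    rw [integral_smul_measure] at h2
    simp only [ENNReal.toReal_pow, ENNReal.toReal_inv, ENNReal.toReal_ofNat, smul_eq_mul] at h2
    refine le_trans ?_ h2
    gcongr

end Pool.Agent.Lib.MP_c22f6b_an
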