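import Pool.Agent.Lib.MP_c22f6b_an.TreeC45
import Pool.Agent.Lib.MP_c22f6b_an.FreqC45

set_option autoImplicit false

namespace Pool.Agent.Lib.MP_c22f6b_an

open MeasureTheory Metric
open scoped ENNReal

lemma mFourier_two (e : ℕ) (v u z : ℤ) (y : Fin (e + 2) → ℝ) (h : |v * y 0 + u * y 1 - z| ≤ 1 / 16) :
    ‖UnitAddTorus.mFourier (Fin.cons v (Fin.cons u 0) : Fin (e + 2) → ℤ)
      (fun i => (y i : UnitAddCircle)) - 1‖ ≤ 1 / 2 := by
  have h2 : UnitAddTorus.mFourier (Fin.cons v (Fin.cons u 0) : Fin (e + 2) → ℤ)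
      (fun i => (y i : UnitAddCircle)) =
      Complex.exp (Complex.I * (2 * Real.pi * (v * y 0 + u * y 1 - z) : ℝ)) := by
    simp only [UnitAddTorus.mFourier, ContinuousMap.coe_mk, Fin.prod_univ_succ, Fin.cons_zero,
      Fin.cons_succ, Pi.zero_apply, fourier_zero, Finset.prod_const_one, mul_one, fourier_coe_apply,
      Fin.succ_zero_eq_one]
    rw [← Complex.exp_add, Complex.exp_eq_exp_iff_exists_int]
    refine ⟨z, ?_⟩
    push_cast
    ring
  rw [h2]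
  refine Real.norm_exp_I_mul_ofReal_sub_one_le.trans ?_
  rw [Real.norm_eq_abs, abs_mul, abs_of_pos Real.two_pi_pos]
  have h7 : 2 * Real.pi ≤ 8 := by linarith [Real.pi_le_four]
  calc 2 * Real.pi * |v * y 0 + u * y 1 - z| ≤ 8 * (1 / 16) := by gcongr
    _ = 1 / 2 := by norm_num

/-- The Cantor measure adapted to a lacunary sequence of frequencies. -/
lemma exists_strip_measure (e m : ℕ) (hm : 2 ≤ m) (K : ℕ → ℕ) (hK : ∀ j, 0 < K j)
    (hK' : ∀ j, K j ≤ m * (128 * m) ^ (e + 1)) (v u : ℕ → ℤ)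
    (hv : ∀ j, 8 * ((128 * m : ℕ) : ℤ) ^ j ≤ 5 * v j ∧ v j ≤ 4 * ((128 * m : ℕ) : ℤ) ^ j ∧
      ((128 * m : ℕ) : ℤ) * |u j| ≤ 4 * ((128 * m : ℕ) : ℤ) ^ j) :
    ∃ μ : Measure (Tor (e + 2)), IsProbabilityMeasure μ ∧
      (∀ j x₀, μ (closedBall x₀ (1 / ((128 * m : ℕ) : ℝ) ^ j)) ≤
        5 ^ (e + 2) * ∏ l ∈ Finset.range j, (K l : ℝ≥0∞)⁻¹) ∧
      (∀ j, ∀ x₀ ∈ μ.support, ∏ l ∈ Finset.range j, (K l : ℝ≥0∞)⁻¹ ≤
        μ (closedBall x₀ (2 / ((128 * m : ℕ) : ℝ) ^ j))) ∧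
      ∀ᵐ x ∂μ, ∀ j, ‖UnitAddTorus.mFourier
        (Fin.cons (v j) (Fin.cons (u j) 0) : Fin (e + 2) → ℤ) x - 1‖ ≤ 1 / 2 := by
  set M : ℕ := 128 * m with hM
  have hm' : (2 : ℝ) ≤ m := by exact_mod_cast hm
  have hM' : (M : ℝ) = 128 * m := by rw [hM]; push_cast; ring
  have hM0 : (0 : ℝ) < M := by linarith
  let B : Finset (Fin (e + 2) → ℤ) :=
    Fintype.piFinset (Fin.cons (Finset.Ico (0 : ℤ) m) fun _ => Finset.Ico (0 : ℤ) M)
  have hB : B.card = m * M ^ (e + 1) := by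
    simp only [B, Fintype.card_piFinset]
    rw [Fin.prod_univ_succ]
    simp
  have hE : ∀ j, Nonempty (Fin (K j) ↪ B) := fun j =>
    Function.Embedding.nonempty_of_card_le (by simpa [hB] using hK' j)
  let E : ∀ j, Fin (K j) ↪ B := fun j => (hE j).some
  have hE0 : ∀ j w, 0 ≤ (E j w).1 0 ∧ (E j w).1 0 < m := fun j w => by
    simpa using Fintype.mem_piFinset.1 (E j w).2 0
  have hE1 : ∀ j w (i : Fin (e + 1)), 0 ≤ (E j w).1 i.succ ∧ (E j w).1 i.succ < M := fun j w i => by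
    simpa using Fintype.mem_piFinset.1 (E j w).2 i.succ
  have hη : ∀ j, (8 : ℝ) ≤ 5 * (v j / M ^ j) ∧ (v j : ℝ) / M ^ j ≤ 4 ∧
      M * |(u j : ℝ) / M ^ j| ≤ 4 := by
    intro j
    have h0 : (0 : ℝ) < M ^ j := by positivity
    obtain ⟨h1, h2, h3⟩ := hv j
    rw [← mul_div_assoc, le_div_iff₀ h0, div_le_iff₀ h0, abs_div, abs_of_pos h0, ← mul_div_assoc,
      div_le_iff₀ h0]
    exact ⟨by exact_mod_cast h1, by exact_mod_cast h2, by exact_mod_cast h3⟩
  choose s z hs0 hs1 hz0 hz1 using fun j (n : Fin (e + 2) → ℤ) =>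
    exists_shift (v j / M ^ j * n 0 + u j / M ^ j * n 1) (v j / M ^ j / M) (5 * M / 8)
      (div_pos (by linarith [(hη j).1]) hM0) (by
        rw [show (v j : ℝ) / M ^ j / M * (5 * M / 8) = 5 * (v j / M ^ j) / 8 by field_simp]
        linarith [(hη j).1])
  obtain ⟨μ, h1, h2, h3, h4⟩ := exists_tree_measure (e + 2) M (by omega) K hK
    (fun j n w => (E j w).1 + Fin.cons (s j n) 0)
    (fun j n w i => by
      refine Fin.cases ?_ (fun i => ?_) i
      · simpa using add_nonneg (hE0 j w).1 (hs0 j n)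
      · simpa using (hE1 j w i).1)
    (fun j n w i => by
      refine Fin.cases ?_ (fun i => ?_) i
      · have a : (((E j w).1 0 : ℤ) : ℝ) < m := by exact_mod_cast (hE0 j w).2
        have b := hs1 j n
        rw [← Int.cast_lt (R := ℝ)]
        simp only [Pi.add_apply, Fin.cons_zero]
        push_cast
        linarith
      · simpa using (hE1 j w i).2)
    (fun j n w w' h => (E j).injective (Subtype.ext (add_right_cancel h)))
  refine ⟨μ, h1, h2, h3, ae_all_iff.2 fun j => h4 {x | ‖UnitAddTorus.mFourier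
    (Fin.cons (v j) (Fin.cons (u j) 0) : Fin (e + 2) → ℤ) x - 1‖ ≤ 1 / 2}
    (isClosed_le (by fun_prop) continuous_const).measurableSet fun y hy => ?_⟩
  obtain ⟨n, w, hy⟩ := hy j
  refine mFourier_two e _ _ (z j n) y ?_
  have a0 := hy 0
  have a1 := hy (Fin.succ 0)
  simp only [Pi.add_apply, Fin.cons_zero, Fin.cons_succ, Pi.zero_apply, add_zero] at a0 a1
  have b0 : (0 : ℝ) ≤ (E j w).1 0 := by exact_mod_cast (hE0 j w).1
  have b1 : (((E j w).1 0 : ℤ) : ℝ) + 1 ≤ m := by exact_mod_cast (hE0 j w).2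
  have c0 : (0 : ℝ) ≤ (E j w).1 (Fin.succ 0) := by exact_mod_cast (hE1 j w 0).1
  have c1 : (((E j w).1 (Fin.succ 0) : ℤ) : ℝ) + 1 ≤ M := by exact_mod_cast (hE1 j w 0).2
  have d0 := hz0 j n
  have d1 := hz1 j n
  obtain ⟨e1, e2, e3⟩ := hη j
  rw [Fin.succ_zero_eq_one] at a1 c0 c1
  push_cast at a0 a1
  have h5 : v j * y 0 + u j * y 1 - z j n =
      (v j / M ^ j * n 0 + u j / M ^ j * n 1 + v j / M ^ j / M * s j n - z j n) +
      v j / M ^ j / M * (M ^ (j + 1) * y 0 - M * n 0 - s j n) +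
      u j / M ^ j * ((M ^ (j + 1) * y 1 - M * n 1) / M) := by
    field_simp
    ring
  have h6 : (v j : ℝ) / M ^ j / M ≤ 1 / (32 * m) := by
    rw [div_le_div_iff₀ hM0 (by linarith)]
    nlinarith
  have h7 : (0 : ℝ) ≤ v j / M ^ j / M := div_nonneg (by linarith) hM0.le
  have h8 : (1 : ℝ) / (32 * m) ≤ 1 / 64 := one_div_le_one_div_of_le (by norm_num) (by linarith)
  have h9 : |(u j : ℝ) / M ^ j| ≤ 1 / 64 := by nlinarith [abs_nonneg ((u j : ℝ) / M ^ j)]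
  rw [h5]
  refine (abs_add_three _ _ _).trans ?_
  rw [abs_of_nonneg d0, abs_mul, abs_mul, abs_of_nonneg h7, abs_of_nonneg (by linarith)]
  have h10 : |((M : ℝ) ^ (j + 1) * y 1 - M * n 1) / M| ≤ 1 := by
    rw [abs_of_nonneg (div_nonneg (by linarith) hM0.le), div_le_one hM0]
    linarith
  have h11 : (v j : ℝ) / M ^ j / M * (M ^ (j + 1) * y 0 - M * n 0 - s j n) ≤ 1 / (32 * m) * m :=
    mul_le_mul h6 (by linarith) (by linarith) (by positivity)
  have h12 : (1 : ℝ) / (32 * m) * m = 1 / 32 := by field_simp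
  have h13 := mul_le_mul h9 h10 (abs_nonneg _) (by norm_num)
  linarith

end Pool.Agent.Lib.MP_c22f6b_an
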