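import Pool.Agent.Lib.MP_c22f6b_an.Basic

set_option autoImplicit false

namespace Pool.Agent.Lib.MP_c22f6b_an

open MeasureTheory Metric ProbabilityTheory
open scoped ENNReal

/-- A measure carried by an `M`-adic Cantor tree whose digit sets may depend on the parent cube. -/
lemma exists_tree_measure (d M : ℕ) (hM : 0 < M) (K : ℕ → ℕ) (hK : ∀ j, 0 < K j)
    (g : (j : ℕ) → (Fin d → ℤ) → Fin (K j) → Fin d → ℤ)
    (hg0 : ∀ j n w i, 0 ≤ g j n w i) (hg1 : ∀ j n w i, g j n w i < M)
    (hgi : ∀ j n, Function.Injective (g j n)) :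
    ∃ μ : Measure (Tor d), IsProbabilityMeasure μ ∧
      (∀ j (x₀ : Tor d), μ (closedBall x₀ (1 / (M : ℝ) ^ j)) ≤
        5 ^ d * ∏ l ∈ Finset.range j, (K l : ℝ≥0∞)⁻¹) ∧
      (∀ j, ∀ x₀ ∈ μ.support, ∏ l ∈ Finset.range j, (K l : ℝ≥0∞)⁻¹ ≤
        μ (closedBall x₀ (2 / (M : ℝ) ^ j))) ∧
      ∀ F : Set (Tor d), MeasurableSet F →
        (∀ y : Fin d → ℝ, (∀ j, ∃ n w, ∀ i, ((M * n i + g j n w i : ℤ) : ℝ) ≤ M ^ (j + 1) * y i ∧
          M ^ (j + 1) * y i ≤ ((M * n i + g j n w i : ℤ) : ℝ) + 1) →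
          (fun i => (y i : UnitAddCircle)) ∈ F) → ∀ᵐ x ∂μ, x ∈ F := by
  have hne : ∀ j, Nonempty (Fin (K j)) := fun j => ⟨⟨0, hK j⟩⟩
  have hM' : (0 : ℝ) < M := by exact_mod_cast hM
  obtain ⟨N, hN0, hN1⟩ : ∃ N : (∀ j, Fin (K j)) → ℕ → Fin d → ℤ, (∀ ω, N ω 0 = 0) ∧
      ∀ ω j, N ω (j + 1) = fun i => M * N ω j i + g j (N ω j) (ω j) i :=
    ⟨fun ω j => Nat.rec 0 (fun j n i => M * n i + g j n (ω j) i) j, fun _ => rfl, fun _ _ => rfl⟩
  have hNb : ∀ ω j i, 0 ≤ N ω j i ∧ N ω j i < M ^ j := by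
    intro ω j i
    induction j with
    | zero => simp [hN0]
    | succ j ih =>
      rw [hN1]
      have h0 := hg0 j (N ω j) (ω j) i
      have h1 := hg1 j (N ω j) (ω j) i
      have h2 : (0 : ℤ) < M := by exact_mod_cast hM
      have h3 : (M : ℤ) * (N ω j i + 1) ≤ M * M ^ j := mul_le_mul_of_nonneg_left ih.2 h2.le
      refine ⟨add_nonneg (mul_nonneg h2.le ih.1) h0, ?_⟩
      rw [pow_succ']
      linarith
  have hNinj : ∀ ω ω' j, N ω j = N ω' j → ∀ l < j, ω l = ω' l := by
    intro ω ω' j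
    induction j with
    | zero => simp
    | succ j ih =>
      intro h l hl
      rw [hN1, hN1] at h
      have h1 : N ω j = N ω' j := by
        funext i
        have h2 := congrFun h i
        have a0 := hg0 j (N ω j) (ω j) i
        have a1 := hg1 j (N ω j) (ω j) i
        have b0 := hg0 j (N ω' j) (ω' j) i
        have b1 := hg1 j (N ω' j) (ω' j) i
        have h3 : (0 : ℤ) < M := by exact_mod_cast hM
        rcases lt_trichotomy (N ω j i) (N ω' j i) with h4 | h4 | h4
        · have : (M : ℤ) * (N ω j i + 1) ≤ M * N ω' j i := mul_le_mul_of_nonneg_left h4 h3.le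
          linarith
        · exact h4
        · have : (M : ℤ) * (N ω' j i + 1) ≤ M * N ω j i := mul_le_mul_of_nonneg_left h4 h3.le
          linarith
      rcases Nat.lt_succ_iff_lt_or_eq.1 hl with h2 | rfl
      · exact ih h1 l h2
      · apply hgi l (N ω l)
        funext i
        have h2 := congrFun h i
        simp only [← h1] at h2
        linarith
  have hNc : ∀ ω ω' j, (∀ l < j, ω l = ω' l) → N ω j = N ω' j := by
    intro ω ω' j
    induction j with
    | zero => simp [hN0]
    | succ j ih =>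
      intro h
      rw [hN1, hN1, ih fun l hl => h l (hl.trans j.lt_succ_self), h j j.lt_succ_self]
  have hNm : ∀ j, Measurable fun ω => N ω j := by
    intro j
    induction j with
    | zero => simp [hN0]
    | succ j ih =>
      simp only [hN1]
      exact (measurable_of_countable (fun p : (Fin d → ℤ) × Fin (K j) =>
        fun i => M * p.1 i + g j p.1 p.2 i)).comp (ih.prodMk (measurable_pi_apply j))
  let Y : (∀ j, Fin (K j)) → Fin d → ℝ := fun ω i => ⨆ j, (N ω j i : ℝ) / M ^ j
  have hY : ∀ ω j i, (N ω j i : ℝ) ≤ M ^ j * Y ω i ∧ M ^ j * Y ω i ≤ N ω j i + 1 := by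
    intro ω j i
    have h1 : Monotone fun j => (N ω j i : ℝ) / M ^ j := by
      refine monotone_nat_of_le_succ fun j => ?_
      have h0 : (0 : ℝ) ≤ g j (N ω j) (ω j) i := by exact_mod_cast hg0 j (N ω j) (ω j) i
      rw [hN1, div_le_div_iff₀ (by positivity) (by positivity), pow_succ]
      push_cast
      have : (0 : ℝ) < M ^ j := by positivity
      nlinarith
    have h2 : Antitone fun j => ((N ω j i : ℝ) + 1) / M ^ j := by
      refine antitone_nat_of_succ_le fun j => ?_
      have h0 : (g j (N ω j) (ω j) i : ℝ) + 1 ≤ M := by exact_mod_cast hg1 j (N ω j) (ω j) i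
      rw [hN1, div_le_div_iff₀ (by positivity) (by positivity), pow_succ]
      push_cast
      have : (0 : ℝ) < M ^ j := by positivity
      nlinarith
    have h3 := h1.forall_le_of_antitone h2 fun j => by
      simp only
      gcongr
      linarith
    have h4 : (0 : ℝ) < M ^ j := by positivity
    rw [← div_le_iff₀' h4, ← le_div_iff₀' h4]
    exact ⟨le_ciSup (f := fun j => (N ω j i : ℝ) / M ^ j) ⟨_, Set.forall_mem_range.2 fun l => h3 l 0⟩ j,
      ciSup_le fun l => h3 l j⟩
  let X : (∀ j, Fin (K j)) → Tor d := fun ω i => (Y ω i : UnitAddCircle)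
  have hX : Measurable X := by
    refine measurable_pi_lambda _ fun i => AddCircle.measurable_mk'.comp (Measurable.iSup fun j => ?_)
    exact ((measurable_of_countable (fun z : Fin d → ℤ => (z i : ℝ))).comp (hNm j)).div_const _
  let P : Measure (∀ j, Fin (K j)) := Measure.infinitePi fun j => uniformOn Set.univ
  have hP : ∀ (ω₀ : ∀ j, Fin (K j)) j, P {ω | ∀ l < j, ω l = ω₀ l} = ∏ l ∈ Finset.range j, (K l : ℝ≥0∞)⁻¹ := by
    intro ω₀ j
    have h1 : {ω : ∀ j, Fin (K j) | ∀ l < j, ω l = ω₀ l} =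
        Set.pi (Finset.range j) fun l => {ω₀ l} := by
      ext ω
      simp
    rw [h1, Measure.infinitePi_pi _ fun l _ => measurableSet_singleton _]
    refine Finset.prod_congr rfl fun l _ => ?_
    rw [uniformOn_univ]
    simp
  refine ⟨P.map X, Measure.isProbabilityMeasure_map hX.aemeasurable, fun j x₀ => ?_,
    fun j x₀ hx₀ => ?_, fun F hF h => ?_⟩
  · rw [Measure.map_apply hX measurableSet_closedBall]
    have h4 : (0 : ℝ) < M ^ j := by positivity
    choose t ht using fun i => QuotientAddGroup.mk_surjective (x₀ i)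
    have h1 : X ⁻¹' closedBall x₀ (1 / (M : ℝ) ^ j) ⊆
        ⋃ c ∈ Fintype.piFinset fun _ : Fin d => Finset.Icc (-2 : ℤ) 2,
          {ω | N ω j = fun i => (⌊(M : ℝ) ^ j * t i⌋ + c i) % M ^ j} := by
      intro ω hω
      rw [Set.mem_preimage, mem_closedBall, dist_pi_le_iff (by positivity)] at hω
      simp only [Set.mem_iUnion, Set.mem_ofPred_eq, Fintype.mem_piFinset, Finset.mem_Icc]
      refine ⟨fun i => N ω j i - ⌊(M : ℝ) ^ j * t i⌋ - M ^ j * round (Y ω i - t i), fun i => ?_, ?_⟩
      · have h2 := hω i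
        rw [dist_eq_norm, ← ht i] at h2
        simp only [X] at h2
        rw [← AddCircle.coe_sub, UnitAddCircle.norm_eq, abs_le, le_div_iff₀ h4, ← neg_div,
          div_le_iff₀ h4] at h2
        have a := hY ω j i
        have b := Int.floor_le ((M : ℝ) ^ j * t i)
        have c := Int.lt_floor_add_one ((M : ℝ) ^ j * t i)
        constructor
        · rw [← Int.cast_le (R := ℝ)]
          push_cast
          linarith [a.1, a.2, h2.1, h2.2]
        · rw [← Int.cast_le (R := ℝ)]
          push_cast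
          linarith [a.1, a.2, h2.1, h2.2]
      · funext i
        rw [show ⌊(M : ℝ) ^ j * t i⌋ + (N ω j i - ⌊(M : ℝ) ^ j * t i⌋ - M ^ j * round (Y ω i - t i))
          = N ω j i - M ^ j * round (Y ω i - t i) by ring, Int.sub_mul_emod_self_left,
          Int.emod_eq_of_lt (hNb ω j i).1 (hNb ω j i).2]
    refine (measure_mono h1).trans ((measure_biUnion_finset_le _ _).trans ?_)
    refine (Finset.sum_le_card_nsmul _ _ (∏ l ∈ Finset.range j, (K l : ℝ≥0∞)⁻¹) fun c _ => ?_).trans
      (by simp)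
    rcases Set.eq_empty_or_nonempty
      {ω | N ω j = fun i => (⌊(M : ℝ) ^ j * t i⌋ + c i) % M ^ j} with h2 | ⟨ω₀, h2⟩
    · simp [h2]
    · rw [← hP ω₀ j]
      exact measure_mono fun ω hω => hNinj ω ω₀ j (hω.trans h2.symm)
  · have h4 : (0 : ℝ) < M ^ j := by positivity
    have h1 := (Measure.mem_support_iff_forall x₀).1 hx₀ _
      (closedBall_mem_nhds x₀ (by positivity : 0 < 1 / (M : ℝ) ^ j))
    rw [Measure.map_apply hX measurableSet_closedBall] at h1 ⊢
    obtain ⟨ω₀, h2⟩ := nonempty_of_measure_ne_zero h1.ne'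
    rw [← hP ω₀ j]
    refine measure_mono fun ω hω => ?_
    have h3 : dist (X ω) (X ω₀) ≤ 1 / (M : ℝ) ^ j := by
      rw [dist_pi_le_iff (by positivity)]
      intro i
      simp only [X]
      rw [dist_eq_norm, ← AddCircle.coe_sub]
      refine le_trans QuotientAddGroup.norm_mk_le_norm ?_
      have a := hY ω j i
      have b := hY ω₀ j i
      rw [hNc ω ω₀ j hω] at a
      rw [Real.norm_eq_abs, abs_le, le_div_iff₀ h4, ← neg_div, div_le_iff₀ h4]
      constructor <;> linarith [a.1, a.2, b.1, b.2]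
    rw [Set.mem_preimage, mem_closedBall] at h2 ⊢
    refine (dist_triangle _ (X ω₀) _).trans ?_
    rw [show 2 / (M : ℝ) ^ j = 1 / M ^ j + 1 / M ^ j by ring]
    exact add_le_add h3 h2
  · refine (ae_map_iff (p := fun x => x ∈ F) hX.aemeasurable hF).2
      (Filter.Eventually.of_forall fun ω => h (Y ω) fun j => ⟨N ω j, ω j, fun i => ?_⟩)
    have := hY ω (j + 1) i
    rwa [hN1] at this

end Pool.Agent.Lib.MP_c22f6b_an
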